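import Pool.Agent.Lib.MP_e87d84_an.All

set_option autoImplicit false

open Filter Topology

namespace Pool.Agent.Results.MP_e87d84_an.NoCommutingPiBasis

/-- `u` is a `π_lam`-basis of the real normed space `E`: projections of finite rank with norms at
most `lam`, increasing ranges, and `u n x → x` for every `x`. -/
structure IsPiBasis (E : Type) [NormedAddCommGroup E] [NormedSpace ℝ E] (lam : ℝ)
    (u : ℕ → E →L[ℝ] E) : Prop where
  proj : ∀ n x, u n (u n x) = u n x
  finiteRank : ∀ n, FiniteDimensional ℝ (LinearMap.range (u n).toLinearMap)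
  bound : ∀ n x, ‖u n x‖ ≤ lam * ‖x‖
  nested : ∀ n, Set.range (u n) ⊆ Set.range (u (n + 1))
  tends : ∀ x, Tendsto (fun n => u n x) atTop (𝓝 x)

/-- There is a real Banach space with a `π`-basis such that no `π_μ`-basis of it, for any `μ`,
is commuting. -/
theorem result :
    ∃ (E : Type) (_ : NormedAddCommGroup E) (_ : NormedSpace ℝ E), CompleteSpace E ∧
      (∃ lam : ℝ, 1 ≤ lam ∧ ∃ u : ℕ → E →L[ℝ] E, IsPiBasis E lam u) ∧
      ∀ (μ : ℝ) (v : ℕ → E →L[ℝ] E), IsPiBasis E μ v →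
        ∃ k n x, v k (v n x) ≠ v (min k n) x := by
  classical
  by_contra hcon
  obtain ⟨P, hG⟩ := Pool.Agent.MP_e87d84.specPARAM
    (Pool.Agent.MP_e87d84.specDAV Pool.Agent.MP_e87d84.specRAND)
  obtain ⟨D, hD⟩ := Pool.Agent.MP_e87d84.specZDM Pool.Agent.MP_e87d84.specNF
    Pool.Agent.MP_e87d84.specWLP P
  refine Pool.Agent.MP_e87d84.allII P hG D hD (Pool.Agent.MP_e87d84.allI ?_ P.Zt D)
  intro E i1 i2 i3 hE
  by_contra hne
  apply hcon
  refine ⟨E, i1, i2, i3, ?_, ?_⟩
  · obtain ⟨u, lam, h1, h2, h3, h4, h5⟩ := hE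
    refine ⟨max 1 lam, le_max_left _ _, u, ?_⟩
    refine ⟨fun n x => ?_, h2, fun n x => ?_, fun n => ?_, h4⟩
    · have := congrArg (fun f : E →L[ℝ] E => f x) (h1 n)
      simpa using this
    · exact ((u n).le_opNorm x).trans
        (mul_le_mul_of_nonneg_right ((h3 n).trans (le_max_right _ _)) (norm_nonneg _))
    · have h := h5 (Nat.le_succ n)
      rintro y ⟨x, rfl⟩
      have hx : u n x ∈ LinearMap.range ((u n : E →L[ℝ] E) : E →ₗ[ℝ] E) := ⟨x, rfl⟩
      obtain ⟨z, hz⟩ := h hx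
      exact ⟨z, hz⟩
  · intro μ v hv
    by_contra hc
    push Not at hc
    apply hne
    refine ⟨v, |μ|, fun k n => ?_, hv.finiteRank, fun n => ?_, hv.tends, ?_⟩
    · ext x
      exact hc k n x
    · refine ContinuousLinearMap.opNorm_le_bound _ (abs_nonneg _) fun x => ?_
      exact (hv.bound n x).trans (mul_le_mul_of_nonneg_right (le_abs_self _) (norm_nonneg _))
    · refine monotone_nat_of_le_succ fun n => ?_
      rintro y ⟨x, rfl⟩
      obtain ⟨z, hz⟩ := hv.nested n ⟨x, rfl⟩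
      exact ⟨z, hz⟩

end Pool.Agent.Results.MP_e87d84_an.NoCommutingPiBasis
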